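import Pool.Agent.V7H61.IV.Tw10

/-!
# Periodic billiard orbits which hit a moving part of the table once or twice

Definitions. The first three are in the file `Pool/Agent/H721R2/Ivrii/Def.lean` of the starting
library, `PartAt` is in `Pool/Agent/V7H61/IV/Mv7.lean`, `Motion` in `Pool/Agent/V7H61/IV/Tw5.lean`,
`Still` and `FlatLine` in `Pool/Agent/V7H61/IV/Tw7.lean`, `Labels`, `OneSet` and `TwiceSet` in
`Pool/Agent/V7H61/IV/Tw9.lean`. Here `Ω` (the table) is a set in `ℝ^d` (any Euclidean space `E` of
dimension `d`), `Ωs i`, `i ∈ ι`, are finitely many ARBITRARY sets (the parts), and `A` is a linear map
from a finite dimensional space `V` of parameters to the space `ι → E × ℝ` of positions and sizes of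
the parts.

* `LocalDef Ω q f`: near `q` the table is `{f < 0}`, `f` is `C³` near `q`, `f q = 0` and the
  gradient of `f` at `q` is not zero;
* `Step Ω q v q' v'`: the particle leaves `q` with velocity `v`, stays in `Ω` until it meets the
  boundary transversally at `q' = q + t v`, `t > 0`, where the boundary is regular of class `C³`,
  and `v'` is the velocity reflected there;
* `OrbitMod Ω g n p u`: `(p k, u k)` is a billiard trajectory of unit speed which is carried into
  itself by the isometry `g` after `n ≥ 1` bounces (for `g = 1` it is periodic with period `n`);
* `PartAt Ω' a s Ω q`: near `q` the table `Ω` coincides with `a + s Ω'`, the part `Ω'` scaled by `s`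
  and moved by the vector `a` (for `s < 0` it is also reflected in a point);
* `Labels Λ Ωs y Ω p a n i c`: for `a < k ≤ a + n` the bounce point `p k` is at the part `i k`, with
  the position and size `y (i k)`, moved in addition by the vector `c k ∈ Λ`. The corresponding point
  of the part `Ωs j`, `j = i k`, is `q = s⁻¹ (p k - (x + c k))`, `y j = (x, s)`;
* `Motion A j (τ, σ)`: some direction in the space of parameters moves the part `j` by `τ` and
  scales it by `σ`, infinitesimally, and does not move the other parts. The point `q` of the part
  moves with the velocity `σ q + τ` then;
* `Still Ω' q X`: `X` is tangent to the boundary of `Ω'` at `q` (a regular point) and in the kernel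
  of its second fundamental form;
* `FlatLine Ω' q q'`: `q` and `q'` are on a line whose direction `w ≠ 0` satisfies `Still Ω' q w`.
  (If the second fundamental form at `q` is nondegenerate this is not the case.);
* `OneSet Γ Λ Ωs A y Ω`: the phase points which start a periodic trajectory modulo some `g ∈ Γ` that
  hits some part `j` exactly once in a period, at a point `q` of the part whose velocity `X` is not
  `Still` for some motion of the part `j`; the other bounces are at other parts;
* `TwiceSet Γ Λ Ωs A y Ω`: the phase points which start a periodic trajectory modulo some `g ∈ Γ`
  that hits some part `j` exactly twice in a period, at the points `q` and `q'` of the part,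
  `FlatLine (Ωs j) q q'` being false, where all `(τ, σ)` are motions of the part `j`; the other
  bounces are at other parts.

The theorem: let `d ≥ 2`, `Γ` a countable set of isometries and `Λ` a countable set of vectors. For
almost every value `l ∈ V` of the parameters, if the positions and sizes of the parts are
`y = x0 + A l`, then for EVERY table `Ω` invariant under `Γ` the set of the phase points whose
trajectory is periodic modulo `Γ` and hits some moving part exactly once or exactly twice in a period,
in the sense of `OneSet` and `TwiceSet`, has `(2 d - 2)`-dimensional (Hausdorff) measure zero.

Examples.

* `V = ι → E × ℝ`, `A = 1`: for almost every position and size of the parts, almost every periodic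
  trajectory (with any number of bounces) hits each part never, or at least three times in a period,
  or exactly twice, at two points of a degenerate line. If the parts have nonzero Gauss curvature
  there are no degenerate lines, and the periodic trajectories with `n` bounces which hit more than
  `n / 3` parts form a null set, for instance those with at most five bounces which hit at least two
  parts (`few_sub` in `Pool/Agent/V7H61/IV/Tw10.lean` is this consequence).
* `V = E × ℝ`, `A` moves and scales the part `j` and leaves the other ones fixed (one of them may be
  the whole table without the obstacle, with the position and size `(0, 1)`): one obstacle of nonzero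
  Gauss curvature in an arbitrary FIXED table, with almost every position and size; the periodic
  trajectories which hit it once or twice in a period form a null set.
* `V = ℝ`: one parameter, for instance the size of one obstacle with a fixed centre. The periodic
  trajectories which hit it exactly once in a period form a null set for almost every size, up to
  those which hit it at a point `q` whose position vector is tangent and degenerate.

## Comparison with earlier results

The perturbations in Petkov and Stoyanov's work on generic properties of reflecting rays, and those
of the starting result `AlmostEveryPerturbation`, deform the boundary with infinitely many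
parameters. Here there are few parameters, the shape of the parts is fixed and arbitrary, and the
parts which are not moved are not restricted at all. All the bounces may be at points of nonzero
curvature of arbitrary sign, so the results on orbits with at most one or two arbitrary bounces do
not apply, nor the theorems on orbits with three or four bounces.

## Outline of the proof

Let the set of parameters and phase points whose trajectory closes up have positive measure, and
consider a density point. There the derivatives of the closing equations vanish. The symplectic form
`ω (ζ, η) = ⟪δx ζ, δe η⟫ - ⟪δx η, δe ζ⟫` of a variation `ζ` of the phase point and a variation `η` of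
the parameters is preserved by the free flight and changes by `-⟪X, δf ζ⟫` at a bounce off a wall
which moves with the velocity `X`, where `f` is the momentum transferred. After a period `ω` is
zero again, so `∑ ⟪X k, δf k⟫ = 0`: the total momentum (and the total virial) transferred to a part
which can be moved (and scaled) does not depend on the phase point, to first order. If the part is
hit once, then `⟪X, δf⟫ = 0` for all variations, where `δf` can be any vector `μ ν + λ S Y`, so `X`
is tangent and `S X = 0`. If it is hit twice, then `δf + δf' = 0` and `⟪q - q', δf⟫ = 0`, and
`q - q'` is tangent and in the kernel of `S`, or `q = q'` on a set of positive measure; then at a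
density point `δq = δq'`, and `δf + δf' = 0` gives `(λ + λ') S = 0`, where `λ` and `λ'` have the same
sign as the particle always comes from inside.
-/

set_option autoImplicit false

open MeasureTheory Set
open scoped ENNReal InnerProductSpace
open Pool.Agent.H721R2.Ivrii

namespace Pool.Agent.Results.MP_249f74_an.FewHitsH61

open Pool.Agent.V7H61.IV

variable {E ι V : Type} [NormedAddCommGroup E] [InnerProductSpace ℝ E] [FiniteDimensional ℝ E]
  [MeasurableSpace E] [BorelSpace E] [Fintype ι] [NormedAddCommGroup V] [NormedSpace ℝ V]
  [FiniteDimensional ℝ V] [MeasureSpace V] [BorelSpace V] [(volume : Measure V).IsAddHaarMeasure]

/-- Let `E` be a Euclidean space of dimension `d ≥ 2`, `Ωs i` (`i ∈ ι`, finite) arbitrary subsets of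
`E`, `Γ` a countable set of isometries, `Λ` a countable set of vectors, and let the positions and
sizes `x0 + A l` of the parts be affine functions of parameters `l ∈ V`. For almost every `l` and
every table `Ω` invariant under `Γ` the following set of phase points has `(2 d - 2)`-dimensional
measure zero: those whose trajectory is periodic modulo `Γ` and hits some part exactly once in a
period, at a point which moves, or hits some part which can be moved and scaled independently of the
other ones exactly twice in a period, not along a degenerate line. -/
theorem result (d : ℕ) (hd : 2 ≤ d) (hE : Module.finrank ℝ E = d) (Ωs : ι → Set E)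
    (x0 : ι → E × ℝ) (A : V →ₗ[ℝ] (ι → E × ℝ)) (Γ : Set (E ≃ᵃⁱ[ℝ] E)) (hΓ : Γ.Countable)
    (Λ : Set E) (hΛ : Λ.Countable) :
    ∀ᵐ l : V, ∀ y, y = x0 + A l → ∀ Ω : Set E, (∀ g ∈ Γ, g ⁻¹' Ω = Ω) →
      μH[((2 * d - 2 : ℕ) : ℝ)] (OneSet Γ Λ Ωs A y Ω ∪ TwiceSet Γ Λ Ωs A y Ω) = 0 := by
  obtain ⟨m, rfl⟩ : ∃ m, d = m + 2 := ⟨d - 2, by omega⟩
  have h2 : 2 * (m + 2) - 2 = 2 * m + 2 := by omega
  rw [h2]
  filter_upwards [one_null hE Ωs x0 A hΓ hΛ, twice_null hE Ωs x0 A hΓ hΛ] with l h1 h2 y hy Ω hinv
  rw [hy]
  exact measure_union_null (h1 Ω hinv) (h2 Ω hinv)

end Pool.Agent.Results.MP_249f74_an.FewHitsH61
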