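import Pool.Agent.V7H61.IV.Mv7

/-!
# Periodic billiard orbits in tables made of parts in general position

Definitions. The first three are in the file `Pool/Agent/H721R2/Ivrii/Def.lean` of the starting
library, the next three in `Pool/Agent/V7H61/IV/Mv7.lean`, the last two below. Here `Ω` (the table)
is a set in `ℝ^d` (any Euclidean space `E` of dimension `d`), and `Ωs i`, `i ∈ ι`, are finitely many
ARBITRARY sets (the parts).

* `LocalDef Ω q f`: near `q` the table is `{f < 0}`, `f` is `C³` near `q`, `f q = 0` and the
  gradient of `f` at `q` is not zero;
* `Step Ω q v q' v'`: the particle leaves `q` with velocity `v`, stays in `Ω` until it meets the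
  boundary transversally at `q' = q + t v`, `t > 0`, where the boundary is regular of class `C³`,
  and `v'` is the velocity reflected there;
* `OrbitMod Ω g n p u`: `(p k, u k)` is a billiard trajectory of unit speed which is carried into
  itself by the isometry `g` after `n ≥ 1` bounces (for `g = 1` it is periodic with period `n`);
* `PartAt Ω' a s Ω q`: near `q` the table `Ω` coincides with `a + s Ω'`, the part `Ω'` scaled by `s`
  and moved by the vector `a` (for `s < 0` it is also reflected in a point);
* `CutSet Γ Λ Ωs t s Ω`: the phase points which start a periodic trajectory modulo some `g ∈ Γ`,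
  such that there are a set `J` of parts (a cluster) and bounces `a + 1, …, a + n` of a period, those
  up to `b` being at parts not in `J` and the others being at parts in `J`, where the part `i` is
  scaled by `s i` and moved by a vector in `t i + Λ`; and the directions of the side `b`, before the
  visit of the cluster, and of the side `a + n`, after the visit, are not parallel (or the two sides
  are on one line and are traversed in opposite directions);
* `LineCutSet Γ Λ Ωs t s Ω`: the same, with the following weaker condition on the two sides: they
  are not on one line traversed in the same direction; the part `i ∈ J` is moved by `t i + c` during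
  the visit, with `c ∈ Λ` fixed;
* `OnceSet Γ Λ Ωs t Ω`: the phase points which start a periodic trajectory modulo some `g ∈ Γ`,
  exactly one bounce in a period of which is at a certain part `j`, all the bounces being at some
  part (the part `i` is moved by a vector in `t i + Λ`, its size is 1);
* `NullFor Γ k S`: for every table `Ω` invariant under `Γ` the set `S Ω` of phase points has
  `k`-dimensional (Hausdorff) measure zero.

For example let `Ω` be the complement in `ℝ^d` of disjoint sets `t i + K i`, or of a lattice `Λ` of
copies of them (`Γ = Λ`, a billiard in a torus, `Ωs i` is the complement of `K i`), or a bounded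
domain from which such sets are removed (then the outer boundary is a part as well).

The theorem: let `d ≥ 2`, let `Γ` be a countable set of isometries and `Λ` a countable set of
vectors.

(1) For almost every position `t : ι → ℝ^d` of the parts and EVERY table `Ω` invariant under `Γ`:
the phase points whose trajectory is periodic modulo `Γ`, with any number of bounces in a period,
and hits some part exactly once in a period form a set of `(2 d - 2)`-dimensional measure zero: up to
a null set each part is hit never or at least twice. More generally the trajectories with a cut form
a null set: almost every periodic trajectory has the property that any two of its sides which are not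
parallel are separated on both arcs by bounces at a common part.

(2) For almost every position and size `y : ι → ℝ^d × ℝ` of the parts and every such table the same
holds for any two sides which are not on one line traversed in the same direction.

The exceptional positions do not depend on the table `Ω` and on the period.

## Comparison with earlier results

The perturbations in Petkov and Stoyanov's work on generic properties of reflecting rays, and those
of the starting result `AlmostEveryPerturbation`, deform the boundary with infinitely many
parameters. Here there are `d` (or `d + 1`) parameters for each part, and the shapes of the parts are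
fixed and arbitrary; they need not be algebraic, flat, umbilic, convex or dispersing, and all the
bounces may be at points of nonzero curvature. A cluster of mirrors which sends the rays on as if
they had not met it shows that two sides on one oriented line have to be excepted in (2), and a
periscope, which moves the rays parallel to themselves, shows the same for parallel sides in (1).

## Outline of the proof

Let the trajectory enter the cluster `J` with position and velocity `(x, w)` and leave it with
`(x', w')`. (1) If all parts in `J` are moved by `s w`, then the incoming ray is the same relative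
to the cluster, so the outgoing one is moved by `s w`, which is another ray, as `w'` is not parallel
to `w`, and the trajectory does not close up any more. So for fixed initial data, positions of the
other parts and shape of the cluster, the closed trajectories correspond to a set which meets each
line with the direction `w` (which does not depend on the position of the cluster) in at most one
point locally. Such a set is null. By Fubini's theorem almost all positions `t` have the property
that almost no initial data `(x, v)` belong to a closed trajectory with a cut. (2) The same with
homotheties with centre on the incoming line and off the outgoing line. The trajectories with two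
sides on one line traversed in opposite directions form a null set for every table (file
`Pool/Agent/V7H61/IV/Retro.lean`), as the symplectic form is conserved.
-/

set_option autoImplicit false

open MeasureTheory Set
open scoped ENNReal InnerProductSpace
open Pool.Agent.H721R2.Ivrii

namespace Pool.Agent.Results.MP_249f74_an.MovedPartsH61

open Pool.Agent.V7H61.IV

/-- The phase points whose orbit is periodic modulo `Γ` and hits some part `j` exactly once in a
period: the bounce `a + n` is at the part `j`, and the bounces `a + 1, …, a + n - 1` are at other
parts. The part `i` is moved by a vector in `t i + Λ`. -/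
def OnceSet {E ι : Type*} [NormedAddCommGroup E] [InnerProductSpace ℝ E] [FiniteDimensional ℝ E]
    (Γ : Set (E ≃ᵃⁱ[ℝ] E)) (Λ : Set E) (Ωs : ι → Set E) (t : ι → E) (Ω : Set E) : Set (E × E) :=
  {z | ∃ g ∈ Γ, ∃ (n : ℕ) (p u : ℕ → E), OrbitMod Ω g n p u ∧ (p 0, u 0) = z ∧
    ∃ (j : ι) (a : ℕ), a < n ∧
      (∀ k, a < k → k < a + n → ∃ i ≠ j, ∃ c ∈ Λ, PartAt (Ωs i) (t i + c) 1 Ω (p k)) ∧
      ∃ c ∈ Λ, PartAt (Ωs j) (t j + c) 1 Ω (p (a + n))}

/-- The velocity changes at a bounce. -/
theorem step_ne {E : Type*} [NormedAddCommGroup E] [InnerProductSpace ℝ E]
    [FiniteDimensional ℝ E] {Ω : Set E} {q v q' v' : E} (h : Step Ω q v q' v') : v' ≠ v := by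
  obtain ⟨τ, -, -, -, F, hF, h1, h2⟩ := h
  intro h3
  rw [h2, sub_eq_self, smul_eq_zero] at h3
  rcases h3 with h3 | h3
  · have h4 : ‖gradient F q'‖ ^ 2 ≠ 0 := pow_ne_zero 2 (norm_ne_zero_iff.2 hF.grad)
    rcases div_eq_zero_iff.1 h3 with h5 | h5
    · exact h1 (by linarith)
    · exact h4 h5
  · exact hF.grad h3

theorem once_sub_cut {E ι : Type*} [NormedAddCommGroup E] [InnerProductSpace ℝ E]
    [FiniteDimensional ℝ E] (Γ : Set (E ≃ᵃⁱ[ℝ] E)) (Λ : Set E) (Ωs : ι → Set E) (t : ι → E)
    (Ω : Set E) : OnceSet Γ Λ Ωs t Ω ⊆ CutSet Γ Λ Ωs t (fun _ => 1) Ω := by
  rintro z ⟨g, hg, n, p, u, hor, rfl, j, a, han, hout, c, hc, hj⟩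
  refine ⟨g, hg, n, p, u, hor, rfl, {j}, a, a + n - 1, han, by omega, by omega, ?_, ?_, ?_⟩
  · intro k h1 h2
    exact hout k h1 (by omega)
  · intro k h1 h2
    have h3 : k = a + n := by omega
    subst h3
    exact ⟨j, rfl, c, hc, hj⟩
  · have hst := hor.step (a + n - 1)
    rw [show a + n - 1 + 1 = a + n by omega] at hst
    by_cases h1 : u (a + n) = -u (a + n - 1)
    · right
      obtain ⟨τ, -, hq, -⟩ := hst
      exact ⟨h1, τ, hq⟩
    · left
      exact ⟨step_ne hst, h1⟩

variable {E ι : Type} [NormedAddCommGroup E] [InnerProductSpace ℝ E] [FiniteDimensional ℝ E]
  [MeasurableSpace E] [BorelSpace E] [Fintype ι]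

/-- The set `S Ω` of phase points has `k`-dimensional measure zero for every table `Ω` invariant
under the isometries in `Γ`. -/
def NullFor (Γ : Set (E ≃ᵃⁱ[ℝ] E)) (k : ℕ) (S : Set E → Set (E × E)) : Prop :=
  ∀ Ω : Set E, (∀ g ∈ Γ, g ⁻¹' Ω = Ω) → μH[(k : ℝ)] (S Ω) = 0

/-- Let `E` be a Euclidean space of dimension `d ≥ 2`, `Ωs i` (`i ∈ ι`, finite) arbitrary subsets of
`E`, `Γ` a countable set of isometries and `Λ` a countable set of vectors. (1) For almost every
position `t` of the parts and every table `Ω` invariant under `Γ`, the phase points whose trajectory
is periodic modulo `Γ` and hits some part exactly once in a period, and those whose trajectory has a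
cut, form sets of `(2 d - 2)`-dimensional measure zero. (2) For almost every position and size `y` of
the parts and every table `Ω` invariant under `Γ`, the phase points whose trajectory is periodic
modulo `Γ` and has a cut whose two sides are not on one line traversed in the same direction form a
set of measure zero. -/
theorem result (d : ℕ) (hd : 2 ≤ d) (hE : Module.finrank ℝ E = d) (Ωs : ι → Set E)
    (Γ : Set (E ≃ᵃⁱ[ℝ] E)) (hΓ : Γ.Countable) (Λ : Set E) (hΛ : Λ.Countable) :
    (∀ᵐ t : ι → E, NullFor Γ (2 * d - 2) (OnceSet Γ Λ Ωs t) ∧
      NullFor Γ (2 * d - 2) (CutSet Γ Λ Ωs t fun _ => 1)) ∧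
    (∀ᵐ y : ι → E × ℝ, NullFor Γ (2 * d - 2)
      (LineCutSet Γ Λ Ωs (fun i => (y i).1) (fun i => (y i).2))) := by
  obtain ⟨m, rfl⟩ : ∃ m, d = m + 2 := ⟨d - 2, by omega⟩
  have h2 : 2 * (m + 2) - 2 = 2 * m + 2 := by omega
  rw [h2]
  refine ⟨?_, line_cut_null hE Ωs hΓ hΛ⟩
  filter_upwards [cut_null hE Ωs hΓ hΛ (fun _ => 1) (fun _ => one_ne_zero)] with t ht
  exact ⟨fun Ω hinv => measure_mono_null (once_sub_cut Γ Λ Ωs t Ω) (ht Ω hinv), ht⟩

end Pool.Agent.Results.MP_249f74_an.MovedPartsH61
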