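import Pool.Agent.V7H61.IV.PolarMain

/-!
# Ivrii's conjecture for radial and tangential normals, and for unions of polar products

Definitions (files `Pool/Agent/H721R2/Ivrii/Def.lean` of the starting library,
`Pool/Agent/V7H61/IV/SplitMain.lean` and `Pool/Agent/V7H61/IV/PolarMain.lean`), for a set `Ω` (the
table) in `ℝ^d` and a point `o`:

* `LocalDef Ω q f`: near `q` the table is `{f < 0}`, `f` is `C³` near `q`, `f q = 0` and the
  gradient of `f` at `q` is not zero;
* `Step Ω q v q' v'`: the particle leaves `q` with velocity `v`, stays in `Ω` until it meets the
  boundary transversally at `q' = q + t v`, `t > 0`, where the boundary is regular of class `C³`,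
  and `v'` is the velocity reflected there;
* `OrbitMod Ω g n p u`: `(p k, u k)` is a billiard trajectory of unit speed which is carried into
  itself by the isometry `g` after `n ≥ 1` bounces;
* `PolarAt o Ω q`: if the boundary is regular of class `C³` at `q` then `q - o` is parallel or
  orthogonal to its normal at `q`. (Locally such a boundary, away from `o`, is a piece of a sphere
  with centre `o` or a cone with apex `o` over an ARBITRARY hypersurface of the unit sphere.);
* `PolarProdAt o Ω q`: near `q` the set `Ω` is the union of finitely many polar products
  `{x | ‖x - o‖ ∈ A i, (x - o) / ‖x - o‖ ∈ B i}` of ARBITRARY sets `A i`, `B i`;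
* `LoopSetAt o Γ Ω S`: the phase points `(q, v)` which start a periodic trajectory modulo some
  `g ∈ Γ`, with any number `n` of bounces in a period, which comes back to one of its bounce points
  within a period, `p b = h (p a)` with `h ∈ Γ` fixing `o`, `0 ≤ a < n`, `a < b ≤ a + n`, in such a
  way that all the bounce points `p k` with `a < k < b` satisfy `S`. (For `Γ = {1}` and `b = a + n`:
  all the bounces in a period but one satisfy `S`, the bounce `p a` being arbitrary.)
* `PerSet Γ Ω`: all the phase points with a periodic trajectory modulo `Γ`.

The theorem: let `d ≥ 2`, let `o` be a point of `ℝ^d` and `Γ` a countable set of isometries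
preserving `Ω`.

(1) The phase points whose trajectory is periodic modulo `Γ` and has a loop within a period all of
whose interior bounces are radial or tangential form a set of dimension at most `2 d - 3`, in
particular a null set.

(2) If the elements of `Γ` fix `o` and near every boundary point different from `o` the table is a
finite union of polar products, then the set of ALL periodic phase points (modulo `Γ`) has dimension
at most `2 d - 3`: Ivrii's conjecture holds for it.

## Outline of the proof

Let `x k`, `e k` be the vertices and directions of a loop, `o = 0`. The angular momentum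
`J² = ‖x‖² - ⟪x, e⟫²` is preserved by all reflections in question, and `⟪x, e⟫` is preserved by the
cones and changes its sign at the spheres. Hence the length of the loop is `L = ∑ a k √(r k² - J²)`,
where `k` runs over the bounces off spheres and the end points, `r k = ‖x k‖` and the `a k` are
integers. Extend both sides to all neighbouring trajectories, the last vertex of the polygon
being replaced by the image of the first: the length and the radii `r k` are stationary if the
initial vertex is fixed. So if the initial direction is moved in the plane of `x` and `e`, the
difference of the two sides changes at the rate `(J²)' / 2 · D₁`, `D j = ∑ a k (r k² - J²)^(1/2 - j)`.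
If `D₁ = 0` then `D₁` itself is an equation, with derivative `-(J²)' (1/2 - 1) D₂`, and so on. As
`L > 0`, not all of the power sums `D j`, `j ≥ 1`, can vanish (Vandermonde). So the loops with
given first nonvanishing power sum lie locally in a hypersurface of the space of trajectories. The
loops which start at `o`, or orthogonally to the radius, or along the radius, lie in hypersurfaces
as well.

For (2): a staircase in polar coordinates at a regular boundary point whose normal has a radial
and a tangential component is not a finite union of products.
-/

set_option autoImplicit false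

open MeasureTheory
open scoped ENNReal

namespace Pool.Agent.Results.MP_249f74_an.PolarNormalsH61

open Pool.Agent.V7H61.IV

/-- For every `d ≥ 2`, every point `o`, every table `Ω ⊆ ℝ^d` and every countable set `Γ` of
isometries preserving `Ω`: (1) the phase points whose trajectory is periodic modulo `Γ`, with any
number of bounces in a period, and comes back within a period to one of its bounce points (modulo
the elements of `Γ` which fix `o`), the normal at each bounce point `q` in between being parallel or
orthogonal to `q - o`, form a set of Hausdorff dimension at most `2 d - 3`, hence of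
`(2 d - 2)`-dimensional measure zero; (2) if `Γ` fixes `o` and near each boundary point different
from `o` the table is a finite union of polar products, then the set of all the phase points whose
trajectory is periodic modulo `Γ` has dimension at most `2 d - 3` and measure zero. -/
theorem result (d : ℕ) (hd : 2 ≤ d) (o : EuclideanSpace ℝ (Fin d))
    (Ω : Set (EuclideanSpace ℝ (Fin d)))
    (Γ : Set (EuclideanSpace ℝ (Fin d) ≃ᵃⁱ[ℝ] EuclideanSpace ℝ (Fin d)))
    (hΓ : Γ.Countable) (hinv : ∀ g ∈ Γ, g ⁻¹' Ω = Ω) :
    (dimH (LoopSetAt o Γ Ω (PolarAt o Ω)) ≤ ((2 * d - 3 : ℕ) : ℝ≥0∞) ∧
      μH[((2 * d - 2 : ℕ) : ℝ)] (LoopSetAt o Γ Ω (PolarAt o Ω)) = 0) ∧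
    ((∀ g ∈ Γ, g o = o) → (∀ q ∈ frontier Ω, q ≠ o → PolarProdAt o Ω q) →
      dimH (PerSet Γ Ω) ≤ ((2 * d - 3 : ℕ) : ℝ≥0∞) ∧
        μH[((2 * d - 2 : ℕ) : ℝ)] (PerSet Γ Ω) = 0) := by
  obtain ⟨m, rfl⟩ : ∃ m, d = m + 2 := ⟨d - 2, by omega⟩
  have h1 : 2 * (m + 2) - 3 = 2 * m + 1 := by omega
  have h2 : 2 * (m + 2) - 2 = 2 * m + 2 := by omega
  have hfr : Module.finrank ℝ (EuclideanSpace ℝ (Fin (m + 2))) = m + 2 := finrank_euclideanSpace_fin
  rw [h1, h2]
  refine ⟨⟨polar_dim hfr hΓ hinv, null_of_dim' (polar_dim hfr hΓ hinv)⟩,
    fun h3 h4 => ⟨polarProd_dim hfr hΓ hinv h3 h4, null_of_dim' (polarProd_dim hfr hΓ hinv h3 h4)⟩⟩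

end Pool.Agent.Results.MP_249f74_an.PolarNormalsH61
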