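import Pool.Agent.V7H61.IV.SplitMain

/-!
# Ivrii's conjecture for tables whose normals are split, and for unions of products

Definitions (files `Pool/Agent/H721R2/Ivrii/Def.lean` of the starting library and
`Pool/Agent/V7H61/IV/SplitMain.lean`), for a set `Ω` (the table) in `ℝ^d`:

* `LocalDef Ω q f`: near `q` the table is `{f < 0}`, `f` is `C³` near `q`, `f q = 0` and the
  gradient of `f` at `q` is not zero;
* `Step Ω q v q' v'`: the particle leaves `q` with velocity `v`, stays in `Ω` until it meets the
  boundary transversally at `q' = q + t v`, `t > 0`, where the boundary is regular of class `C³`,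
  and `v'` is the velocity reflected there;
* `OrbitMod Ω g n p u`: `(p k, u k)` is a billiard trajectory of unit speed which is carried into
  itself by the isometry `g` after `n ≥ 1` bounces;
* `SplitAt F Ω q`: for a subspace `F`, if the boundary is regular of class `C³` at `q` then its
  normal at `q` lies in `F` or in the orthogonal complement of `F`. (Locally such a boundary is
  made of cylinders over ARBITRARY hypersurfaces of `F` and of the orthogonal complement.);
* `ProdAt F Ω q`: near `q` the set `Ω` is the union of finitely many products
  `{x | x_F ∈ A i, x_{F^⊥} ∈ B i}` of ARBITRARY sets `A i`, `B i` (the complement of such a set is of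
  the same form);
* `LoopSet Γ Ω S`: the phase points `(q, v)` which start a periodic trajectory modulo some `g ∈ Γ`,
  with any number `n` of bounces in a period, which comes back to one of its bounce points within a
  period, `p b = h (p a)` with `h ∈ Γ`, `0 ≤ a < n`, `a < b ≤ a + n`, in such a way that all the
  bounce points `p k` with `a < k < b` satisfy `S`. (For `b = a + n`, `h = g`: all the bounces in a
  period but one satisfy `S`, the bounce `p a` being arbitrary.)
* `PerSet Γ Ω`: all the phase points with a periodic trajectory modulo `Γ`.

The theorem: let `d ≥ 2`, let `F` be a subspace of `ℝ^d` which is neither zero nor the whole space,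
and let `Γ` be a countable set of isometries preserving `Ω`.

(1) The phase points whose trajectory is periodic modulo `Γ` and has a loop within a period all of
whose interior bounces are split form a set of dimension at most `2 d - 3`, in particular a null set.
So almost every periodic point has at least two bounces in a period at which the normal is neither
in `F` nor in its orthogonal complement.

(2) If near every boundary point the table is a finite union of products, then the set of ALL
periodic phase points (modulo `Γ`) has dimension at most `2 d - 3`: Ivrii's conjecture holds for it.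

## Outline of the proof

Let `P`, `Q` be the projections on `F` and its complement, and let `e k` be the directions of a
loop with split mirrors. The reflections preserve `c = ‖P (e k)‖` and `s = ‖Q (e k)‖`. So the length
`ℓ_P` of the projection to `F` is `c` times the length `T` of the loop, and `ℓ_Q = s T`; the
function `ψ = s ℓ_P - c ℓ_Q` vanishes on the set `A` of the loops. Extend `ℓ_P` to the neighbouring
trajectories (which do not close) as `∑ ⟨w k, y (k+1) - y k⟩`, where `w k = P (e k) / ‖P (e k)‖` and
`y` is the polygon of the vertices, the last of which is replaced by the image of the first under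
`h`. On `A` the derivative of `ℓ_P` in a direction which fixes the initial vertex is zero
(summation by parts: `w (k-1) - w k` is parallel to the normal at the bounce `k`, or zero, and the
derivative of `w k` is orthogonal to `e k`). Moving the initial direction in the plane of its
two components by `c² Q e - s² P e` changes `ψ` at the rate `c s T > 0`. Hence `A` lies locally in a
hypersurface of the space of trajectories, at all its points; those with `c = 0` or `s = 0` are
obviously in hyperplanes.

For (2): if the normal `ν = ν₁ + ν₂` at a regular boundary point has two nonzero components, then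
in the plane of `ν₁` and `ν₂` the table is locally the half plane below a line with negative
slope, and the points of a staircase on this line show that it is not a union of `r` products:
among `r + 1` points just below the line two belong to the same product, which then contains a
point above the line.
-/

set_option autoImplicit false

open MeasureTheory
open scoped ENNReal

namespace Pool.Agent.Results.MP_249f74_an.SplitNormalsH61

open Pool.Agent.V7H61.IV

/-- For every `d ≥ 2`, every subspace `F ≠ 0, ℝ^d`, every table `Ω ⊆ ℝ^d` and every countable set `Γ`
of isometries preserving `Ω`: (1) the phase points whose trajectory is periodic modulo `Γ`, with any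
number of bounces in a period, and comes back within a period to one of its bounce points (modulo
`Γ`), the normal at all the bounces in between being in `F` or orthogonal to `F`, form a set of
Hausdorff dimension at most `2 d - 3`, hence a set of `(2 d - 2)`-dimensional measure zero; (2) if
near each boundary point `Ω` is a finite union of products of subsets of `F` and of its orthogonal
complement, then the set of all the phase points whose trajectory is periodic modulo `Γ` has
dimension at most `2 d - 3` and measure zero. -/
theorem result (d : ℕ) (hd : 2 ≤ d) (F : Submodule ℝ (EuclideanSpace ℝ (Fin d))) (hF0 : F ≠ ⊥)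
    (hF1 : F ≠ ⊤) (Ω : Set (EuclideanSpace ℝ (Fin d)))
    (Γ : Set (EuclideanSpace ℝ (Fin d) ≃ᵃⁱ[ℝ] EuclideanSpace ℝ (Fin d)))
    (hΓ : Γ.Countable) (hinv : ∀ g ∈ Γ, g ⁻¹' Ω = Ω) :
    (dimH (LoopSet Γ Ω (SplitAt F Ω)) ≤ ((2 * d - 3 : ℕ) : ℝ≥0∞) ∧
      μH[((2 * d - 2 : ℕ) : ℝ)] (LoopSet Γ Ω (SplitAt F Ω)) = 0) ∧
    ((∀ q ∈ frontier Ω, ProdAt F Ω q) →
      dimH (PerSet Γ Ω) ≤ ((2 * d - 3 : ℕ) : ℝ≥0∞) ∧
        μH[((2 * d - 2 : ℕ) : ℝ)] (PerSet Γ Ω) = 0) := by
  obtain ⟨m, rfl⟩ : ∃ m, d = m + 2 := ⟨d - 2, by omega⟩
  have h1 : 2 * (m + 2) - 3 = 2 * m + 1 := by omega
  have h2 : 2 * (m + 2) - 2 = 2 * m + 2 := by omega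
  have hfr : Module.finrank ℝ (EuclideanSpace ℝ (Fin (m + 2))) = m + 2 := finrank_euclideanSpace_fin
  rw [h1, h2]
  refine ⟨⟨split_dim hfr hF0 hF1 hΓ hinv, null_of_dim' (split_dim hfr hF0 hF1 hΓ hinv)⟩,
    fun h => ⟨prod_dim hfr hF0 hF1 hΓ hinv h, null_of_dim' (prod_dim hfr hF0 hF1 hΓ hinv h)⟩⟩

end Pool.Agent.Results.MP_249f74_an.SplitNormalsH61
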